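import Pool.Agent.Helper75.PY.Stmts2

set_option autoImplicit false

universe u

open Pool.Agent.Helper75.PY Pool.Agent.Helper75.PX

namespace Pool.Agent.Helper84.PY

theorem st_QS2 : Pool.Agent.Helper75.PY.ST_QS2.{u} := by
  intro K A _ _ _ i j a b x₀ x₁ h2 hx₁ hn h
  have hi := h.hi
  have hj := h.hj
  have hji := h.hji
  have hb := h.b0
  rw [add_mul, one_mul] at hji
  rw [Algebra.algebraMap_eq_smul_one] at hi hj
  have p1 : i * (j * i) = i * j + i * j + a • j := by
    rw [hji, mul_add, ← mul_assoc, hi, add_mul, smul_mul_assoc, one_mul]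
    module
  have p2 : (j * i) * i = i * j + j + a • j := by
    rw [mul_assoc, hi, mul_add, mul_smul_comm, mul_one, hji]
  have p4 : j * (j * i) = b • i := by
    rw [← mul_assoc, hj, smul_mul_assoc, one_mul]
  have p5 : (j * i) * j = b • i + b • (1 : A) := by
    rw [hji, add_mul, mul_assoc, hj, mul_smul_comm, mul_one]
  have p3 : (j * i) * (j * i) = (b + b) • i + (b + b) • i + (a * b + (b + b)) • (1 : A) := by
    rw [← mul_assoc, p5, add_mul, smul_mul_assoc, smul_mul_assoc, one_mul, hi]
    have e : (j * i) * j * i = b • (i * i) + b • i := by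
      rw [p5, add_mul, smul_mul_assoc, smul_mul_assoc, one_mul]
    linear_combination (norm := module) (0 : K) • e - h2 • (b • i + b • i + b • (1 : A)) +
      h2 • (0 : A) + h2 • (b • i) + h2 • (0 : A)
  set k : K := x₀ / (x₁ * b) with hk
  have hk1 : x₁ * k * b = x₀ := by
    rw [hk]
    field_simp
  refine ⟨?_, ?_, ?_, hn⟩
  · have e : (i + k • (j * i)) * (i + k • (j * i)) =
        i * i + k • (i * (j * i)) + k • ((j * i) * i) + (k * k) • ((j * i) * (j * i)) := by
      simp only [add_mul, mul_add, smul_mul_assoc, mul_smul_comm]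
      module
    have ea : a * (x₀ ^ 2 + b * x₁ ^ 2) / (b * x₁ ^ 2) = a + k * k * (a * b) := by
      rw [hk]
      field_simp
      ring
    rw [e, hi, p1, p2, p3, ea, Algebra.algebraMap_eq_smul_one, hji]
    linear_combination (norm := module) h2 • (k • (i * j) + (k * a) • j +
      (k * k * b + k * k * b) • i + (k * k * b) • (1 : A))
  · have e : (x₀ • (1 : A) + x₁ • j) * (x₀ • (1 : A) + x₁ • j) =
        (x₀ * x₀) • (1 : A) + (x₀ * x₁) • j + (x₀ * x₁) • j + (x₁ * x₁) • (j * j) := by
      simp only [add_mul, mul_add, smul_mul_assoc, mul_smul_comm, one_mul, mul_one]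
      module
    rw [e, hj, Algebra.algebraMap_eq_smul_one]
    linear_combination (norm := module) h2 • ((x₀ * x₁) • j)
  · have e : (x₀ • (1 : A) + x₁ • j) * (i + k • (j * i)) =
        x₀ • i + (x₀ * k) • (j * i) + x₁ • (j * i) + (x₁ * k) • (j * (j * i)) := by
      simp only [add_mul, mul_add, smul_mul_assoc, mul_smul_comm, one_mul]
      module
    have e' : (i + k • (j * i) + 1) * (x₀ • (1 : A) + x₁ • j) =
        x₀ • i + (x₀ * k) • (j * i) + x₀ • (1 : A) + x₁ • (i * j) + (x₁ * k) • ((j * i) * j) +
          x₁ • j := by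
      simp only [add_mul, mul_add, smul_mul_assoc, mul_smul_comm, one_mul, mul_one]
      module
    rw [e, e', p4, p5, hji]
    linear_combination (norm := module) (-hk1) • (1 : A) - h2 • (x₀ • (1 : A))

end Pool.Agent.Helper84.PY
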